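import Pool.Agent.Helper35.SL.Stm2

/-! SL GE: Gel'fond's conjecture in full, from the relative rank inequality. -/

set_option autoImplicit false

namespace Pool.Agent.Helper38.SL

open Pool.Agent.Helper35.EM Pool.Agent.Helper56.EM Pool.Agent.Helper35.GF Set Module Submodule
  Pool.Agent.Helper35.SL
open Pool.Agent.Helper56.SA (Tw finrank_gr)

section

variable {K : IntermediateField ℚ ℂ} {lam : K →ₗ[ℚ] ℂ} {P : Submodule ℚ (ℂ × ℂ)} {F : ExpField}

/-- algebraic numbers with algebraic exponential -/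
theorem zero_of_log (hFE : ∀ x : K, F.E x = Complex.exp (lam x)) (hLW : LindemannWeierstrass F)
    {x : K} (h1 : (x : ℂ) ∈ M.closure ∅) (h2 : Complex.exp (lam x) ∈ M.closure ∅) : x = 0 := by
  by_contra h0
  have h0' : (x : ℂ) ≠ 0 := fun h => h0 (Subtype.ext h)
  have h3 := hLW 1 (fun _ => (x : ℂ)) (fun _ => mem_cl_empty.1 h1)
    (LinearIndependent.of_subsingleton (0 : Fin 1) h0')
  have h4 := h3.transcendental 0
  apply h4
  rw [hFE x]
  exact mem_cl_empty.1 h2

/-- an algebraic number in the span of the base and logarithms is zero -/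
theorem alg_part (hT : Tw lam P) (htr : ∀ p ∈ P, p.1 ∈ M.closure ∅ → p = 0) {a l : K}
    (ha : (a : ℂ) ∈ M.closure ∅) (hl : Complex.exp (lam l) ∈ M.closure ∅)
    (hp : gr lam (a + l) ∈ P) : a = 0 := by
  by_contra h0
  have hfX := hT.finX0
  have ha1 : a ∉ P.comap (gr lam) := by
    intro h
    apply h0
    have h1 := htr _ h ha
    exact gr_inj lam (by rw [h1, map_zero])
  obtain ⟨W, hW⟩ : ∃ W : Submodule ℚ K, W = P.comap (gr lam) ⊔ span ℚ {a} := ⟨_, rfl⟩
  have hfW : FiniteDimensional ℚ W := by rw [hW]; infer_instance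
  have hdW : finrank ℚ P + 1 ≤ finrank ℚ W := by
    rw [← hT.finrankX0]
    have hlt : P.comap (gr lam) < W := by
      rw [hW]
      refine lt_of_le_of_ne le_sup_left fun h => ha1 ?_
      rw [h]
      exact Submodule.mem_sup_right (Submodule.mem_span_singleton_self a)
    exact Submodule.finrank_lt_finrank_of_lt hlt
  have hPW : P ≤ W.map (gr lam) := by
    rw [← hT.map_X0]
    exact Submodule.map_mono (by rw [hW]; exact le_sup_left)
  have hinf : W.map (gr lam) ⊓ P = P := inf_eq_right.2 hPW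
  have hexa : Complex.exp (lam a) ∈ M.closure (co P) := by
    have h1 : Complex.exp (lam (a + l)) ∈ M.closure (co P) := cl_self ⟨_, hp, Or.inr rfl⟩
    rw [map_add, Complex.exp_add] at h1
    have h2 := cl_div h1 (cl_empty_le (s := co P) hl)
    rwa [mul_div_cancel_right₀ _ (Complex.exp_ne_zero _)] at h2
  have hco : co (W.map (gr lam)) ⊆ M.closure (co P) := by
    rintro x ⟨_, ⟨v, hv, rfl⟩, hx⟩
    rw [SetLike.mem_coe, hW] at hv
    obtain ⟨v0, hv0, v1, hv1, rfl⟩ := Submodule.mem_sup.1 hv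
    obtain ⟨c, rfl⟩ := Submodule.mem_span_singleton.1 hv1
    rcases hx with rfl | rfl
    · show ((v0 + c • a : K) : ℂ) ∈ _
      have e : ((v0 + c • a : K) : ℂ) = (v0 : ℂ) + c • (a : ℂ) := rfl
      rw [e]
      exact cl_add (cl_self ⟨_, hv0, Or.inl rfl⟩) (cl_smul c (cl_empty_le ha))
    · show Complex.exp (lam (v0 + c • a)) ∈ _
      rw [map_add, map_smul]
      exact cl_exp_add (cl_self ⟨_, hv0, Or.inr rfl⟩) (cl_exp_smul c hexa)
  have hrk := hT.rk W hfW
  rw [hinf] at hrk
  have h1 : M.eRk (co (W.map (gr lam))) ≤ M.eRk (co P) := by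
    rw [← M.eRk_closure_eq (co P)]
    exact M.eRk_mono hco
  obtain ⟨e, he⟩ := ENat.ne_top_iff_exists.1 hT.top
  have h2 := hrk.trans (add_le_add h1 le_rfl)
  rw [← he] at h2
  norm_cast at h2
  omega

end

/-- Package GE -/
theorem ge : S_GE := by
  intro K lam P F hT hFK hFE halgK hLW htr τ κ hτ hexp n m α u hα hu hαi hui
  have huK : ∀ j, u j ∈ K := fun j => by have := (hu j).1; rw [hFK] at this; exact this
  have hαK : ∀ i, α i ∈ K := fun i => halgK _ (mem_cl_empty.2 (hα i))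
  set α' : Fin n → K := fun i => ⟨α i, hαK i⟩ with hα'
  set u' : Fin m → K := fun j => ⟨u j, huK j⟩ with hu'
  have hαi' : LinearIndependent ℚ α' := by
    have h1 : α = K.val.toLinearMap ∘ α' := rfl
    rw [h1] at hαi
    exact hαi.of_comp _
  have hui' : LinearIndependent ℚ u' := by
    have h1 : u = K.val.toLinearMap ∘ u' := rfl
    rw [h1] at hui
    exact hui.of_comp _
  set A : Submodule ℚ K := span ℚ (range α') with hA
  set B : Submodule ℚ K := span ℚ (range u') with hB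
  set g : Fin (n + m) → ℂ := Fin.append (fun i => F.E (α i)) u with hg
  have hgl : ∀ i, F.E (α i) ∈ M.closure (range g) := fun i =>
    cl_self ⟨Fin.castAdd m i, by rw [hg, Fin.append_left]⟩
  have hgr : ∀ j, u j ∈ M.closure (range g) := fun j =>
    cl_self ⟨Fin.natAdd n j, by rw [hg, Fin.append_right]⟩
  have hfA : FiniteDimensional ℚ A := FiniteDimensional.span_of_finite ℚ (finite_range α')
  have hfB : FiniteDimensional ℚ B := FiniteDimensional.span_of_finite ℚ (finite_range u')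
  have hAcl : ∀ a ∈ A, (a : ℂ) ∈ M.closure ∅ ∧ Complex.exp (lam a) ∈ M.closure (range g) := by
    intro a ha
    induction ha using Submodule.span_induction with
    | mem v hv =>
      obtain ⟨i, rfl⟩ := hv
      refine ⟨mem_cl_empty.2 (hα i), ?_⟩
      rw [← hFE]
      exact hgl i
    | zero =>
      refine ⟨cl_zero _, ?_⟩
      rw [map_zero, Complex.exp_zero]; exact cl_one _
    | add v w _ _ hv hw =>
      refine ⟨cl_add hv.1 hw.1, ?_⟩
      rw [map_add]; exact cl_exp_add hv.2 hw.2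
    | smul c v _ hv =>
      refine ⟨cl_smul c hv.1, ?_⟩
      rw [map_smul]; exact cl_exp_smul c hv.2
  have hBcl : ∀ b ∈ B, (b : ℂ) ∈ M.closure (range g) ∧ Complex.exp (lam b) ∈ M.closure ∅ := by
    intro b hb
    induction hb using Submodule.span_induction with
    | mem v hv =>
      obtain ⟨j, rfl⟩ := hv
      refine ⟨hgr j, ?_⟩
      rw [← hFE]
      exact mem_cl_empty.2 (hu j).2
    | zero =>
      refine ⟨cl_zero _, ?_⟩
      rw [map_zero, Complex.exp_zero]; exact cl_one _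
    | add v w _ _ hv hw =>
      refine ⟨cl_add hv.1 hw.1, ?_⟩
      rw [map_add]; exact cl_exp_add hv.2 hw.2
    | smul c v _ hv =>
      refine ⟨cl_smul c hv.1, ?_⟩
      rw [map_smul]; exact cl_exp_smul c hv.2
  have hAB : A ⊓ B = ⊥ := by
    rw [eq_bot_iff]
    rintro x ⟨h1, h2⟩
    rw [Submodule.mem_bot]
    exact zero_of_log hFE hLW (hAcl x h1).1 (hBcl x h2).2
  have hdV : finrank ℚ (A ⊔ B : Submodule ℚ K) = n + m := by
    have h1 := Submodule.finrank_sup_add_finrank_inf_eq A B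
    rw [hAB, finrank_bot, add_zero] at h1
    rw [h1, hA, hB, finrank_span_eq_card hαi', finrank_span_eq_card hui']
    simp
  have hfV : FiniteDimensional ℚ (A ⊔ B : Submodule ℚ K) := inferInstance
  have hrk := hT.rk (A ⊔ B) hfV
  rw [hdV] at hrk
  set I : Submodule ℚ (ℂ × ℂ) := (A ⊔ B).map (gr lam) ⊓ P with hI
  have hIspan : I ≤ span ℚ {(τ, κ)} := by
    rintro p ⟨⟨v, hv, rfl⟩, hp⟩
    obtain ⟨a, ha, b, hb, rfl⟩ := Submodule.mem_sup.1 hv
    have ha0 := alg_part hT htr (hAcl a ha).1 (hBcl b hb).2 hp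
    rw [ha0, zero_add] at hp ⊢
    obtain ⟨c, hc⟩ := hexp _ hp (hBcl b hb).2
    rw [hc]
    exact Submodule.smul_mem _ _ (Submodule.mem_span_singleton_self _)
  have hdI : (finrank ℚ I : ℕ∞) ≤ M.eRk (co I) := by
    by_cases hb : I = ⊥
    · rw [hb, finrank_bot]; simp
    · have h2 : finrank ℚ I ≤ 1 := (Submodule.finrank_mono hIspan).trans
        (finrank_span_le_card ({(τ, κ)} : Set (ℂ × ℂ)) |>.trans (by simp))
      obtain ⟨p, hp, hp0⟩ := Submodule.exists_mem_ne_zero_of_ne_bot hb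
      obtain ⟨c, rfl⟩ := Submodule.mem_span_singleton.1 (hIspan hp)
      have hc : c ≠ 0 := fun h => hp0 (by rw [h, zero_smul])
      have hcC : (c : ℂ) ≠ 0 := by exact_mod_cast hc
      have h3 : (c : ℂ) * τ ∈ co I := ⟨_, hp, Or.inl (by
        rw [Prod.smul_fst, Rat.smul_def])⟩
      have h4 : (1 : ℕ∞) ≤ M.eRk (co I) := one_le_rk h3 fun h6 => by
        rw [cl_mul_iff (cl_ratCast _ _) hcC] at h6
        exact hτ h6
      refine le_trans ?_ h4
      exact_mod_cast h2
  have htop : M.eRk (co I) ≠ ⊤ := ne_top_of_le_ne_top hT.top (M.eRk_mono (co_mono inf_le_right))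
  have h2 : ((n + m : ℕ) : ℕ∞) ≤ M.eRk (co ((A ⊔ B).map (gr lam))) := by
    have h3 : ((n + m : ℕ) : ℕ∞) + M.eRk (co I) ≤
        M.eRk (co ((A ⊔ B).map (gr lam))) + M.eRk (co I) := hrk.trans (by gcongr)
    exact (ENat.add_le_add_iff_right htop).1 h3
  apply algInd_of_rk
  refine h2.trans ?_
  rw [← M.eRk_closure_eq (range g)]
  apply M.eRk_mono
  rintro x ⟨_, ⟨v, hv, rfl⟩, hx⟩
  obtain ⟨a, ha, b, hb, rfl⟩ := Submodule.mem_sup.1 hv
  rcases hx with rfl | rfl
  · show ((a + b : K) : ℂ) ∈ _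
    have e : ((a + b : K) : ℂ) = (a : ℂ) + (b : ℂ) := rfl
    rw [e]
    exact cl_add (cl_empty_le (hAcl a ha).1) (hBcl b hb).1
  · show Complex.exp (lam (a + b)) ∈ _
    rw [map_add]
    exact cl_exp_add (hAcl a ha).2 (cl_empty_le (hBcl b hb).2)

end Pool.Agent.Helper38.SL

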