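import Pool.Agent.Helper35.SL.Stm

/-! SL TI: the trivial implications between the instances. -/

set_option autoImplicit false

namespace Pool.Agent.Helper38.SL

open Pool.Agent.Helper35.EM Pool.Agent.Helper35.GF Set Module Submodule Pool.Agent.Helper35.SL

theorem schR_succ_right {F : ExpField} {n k : ℕ} (h : SchR F n k) : SchR F n (k + 1) := by
  intro z hz hi
  refine (h z hz hi).trans ?_
  gcongr
  exact_mod_cast Nat.le_succ k

theorem schR_succ_succ {F : ExpField} {n k : ℕ} (h : SchR F n k) : SchR F (n + 1) (k + 1) := by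
  intro z hz hi
  have h1 := h (fun i => z i.castSucc) (fun i => hz _) (hi.comp _ (Fin.castSucc_injective n))
  have h2 : M.eRk (range (fun i : Fin n => z i.castSucc) ∪ range fun i : Fin n => F.E (z i.castSucc)) ≤
      M.eRk (range z ∪ range fun i => F.E (z i)) := by
    apply M.eRk_mono
    rintro x (⟨i, rfl⟩ | ⟨i, rfl⟩)
    · exact Or.inl ⟨_, rfl⟩
    · exact Or.inr ⟨_, rfl⟩
  calc ((n + 1 : ℕ) : ℕ∞) = (n : ℕ∞) + 1 := by push_cast; rfl
    _ ≤ (M.eRk (range z ∪ range fun i => F.E (z i)) + (k : ℕ∞)) + 1 := by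
        gcongr
        exact h1.trans (by gcongr)
    _ = M.eRk (range z ∪ range fun i => F.E (z i)) + ((k + 1 : ℕ) : ℕ∞) := by
        push_cast; rw [add_assoc]

theorem schR_of_succ {F : ExpField} {n k : ℕ} (h : SchR F (n + 1) k) : SchR F n k := by
  intro z hz hi
  obtain ⟨g, hg, hgi⟩ := Pool.Agent.Helper35.GL.ga (n + 1)
  have hex : ∃ i, g i ∉ span ℚ (range z) := by
    by_contra hcon
    push Not at hcon
    have h1 : span ℚ (range g) ≤ span ℚ (range z) := by
      rw [span_le]; rintro _ ⟨i, rfl⟩; exact hcon i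
    have hf : FiniteDimensional ℚ (span ℚ (range z)) :=
      FiniteDimensional.span_of_finite ℚ (finite_range z)
    have h2 := Submodule.finrank_mono h1
    rw [finrank_span_eq_card hgi, finrank_span_eq_card hi] at h2
    simp at h2
  obtain ⟨i0, hi0⟩ := hex
  set α := g i0 with hα
  have hαK : α ∈ F.K := F.closed _ ((hg i0).tower_top _)
  have hzi : LinearIndependent ℚ (Fin.snoc z α : Fin (n + 1) → ℂ) := by
    rw [linearIndependent_finSnoc]
    exact ⟨hi, hi0⟩
  have hzK : ∀ i, (Fin.snoc z α : Fin (n + 1) → ℂ) i ∈ F.K := by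
    intro i
    refine Fin.lastCases ?_ (fun i => ?_) i
    · rw [Fin.snoc_last]; exact hαK
    · rw [Fin.snoc_castSucc]; exact hz i
  have h1 := h _ hzK hzi
  have h2 : M.eRk (range (Fin.snoc z α : Fin (n + 1) → ℂ) ∪
      range fun i => F.E ((Fin.snoc z α : Fin (n + 1) → ℂ) i)) ≤
      M.eRk (range z ∪ range fun i => F.E (z i)) + 1 := by
    have h3 : (range (Fin.snoc z α : Fin (n + 1) → ℂ) ∪
        range fun i => F.E ((Fin.snoc z α : Fin (n + 1) → ℂ) i)) ⊆
        M.closure (insert (F.E α) (range z ∪ range fun i => F.E (z i))) := by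
      rintro x (⟨i, rfl⟩ | ⟨i, rfl⟩)
      · refine Fin.lastCases ?_ (fun i => ?_) i
        · rw [Fin.snoc_last]
          exact cl_mono (empty_subset _) (mem_cl_empty.2 (hg i0))
        · rw [Fin.snoc_castSucc]
          exact cl_self (Or.inr (Or.inl ⟨i, rfl⟩))
      · refine Fin.lastCases ?_ (fun i => ?_) i
        · dsimp only
          rw [Fin.snoc_last]
          exact cl_self (Or.inl rfl)
        · dsimp only
          rw [Fin.snoc_castSucc]
          exact cl_self (Or.inr (Or.inr ⟨i, rfl⟩))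
    calc _ ≤ M.eRk (M.closure (insert (F.E α) (range z ∪ range fun i => F.E (z i)))) :=
          M.eRk_mono h3
      _ = M.eRk (insert (F.E α) (range z ∪ range fun i => F.E (z i))) := Matroid.eRk_closure_eq _ _
      _ ≤ _ := Matroid.eRk_insert_le_add_one _ _ _
  have h4 : ((n : ℕ∞) + 1) ≤ (M.eRk (range z ∪ range fun i => F.E (z i)) + (k : ℕ∞)) + 1 := by
    calc ((n : ℕ∞) + 1) = ((n + 1 : ℕ) : ℕ∞) := by push_cast; rfl
      _ ≤ _ := h1
      _ ≤ (M.eRk (range z ∪ range fun i => F.E (z i)) + 1) + (k : ℕ∞) := by gcongr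
      _ = _ := by rw [add_assoc, add_comm 1 (k : ℕ∞), ← add_assoc]
  exact (ENat.add_le_add_iff_right (by simp)).1 h4

theorem schR_lw {F : ExpField} {n : ℕ} (h : LindemannWeierstrass F) : SchR F (n + 1) n := by
  intro z hz hi
  have h1 : (1 : ℕ∞) ≤ M.eRk (range z ∪ range fun i => F.E (z i)) := by
    by_cases h0 : z 0 ∈ M.closure ∅
    · have h2 := h 1 (fun _ => z 0) (fun _ => mem_cl_empty.1 h0) (by
        have := hi.comp (fun _ : Fin 1 => (0 : Fin (n + 1))) (Function.injective_of_subsingleton _)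
        exact this)
      refine one_le_rk (x := F.E (z 0)) (Or.inr ⟨0, rfl⟩) ?_
      intro h3
      exact (h2.transcendental 0) (mem_cl_empty.1 h3)
    · exact one_le_rk (x := z 0) (Or.inl ⟨0, rfl⟩) h0
  calc ((n + 1 : ℕ) : ℕ∞) = 1 + (n : ℕ∞) := by push_cast; rw [add_comm]
    _ ≤ _ := by gcongr

theorem ti : S_TI := fun _ _ _ => ⟨schR_succ_right, schR_of_succ, schR_succ_succ, schR_lw⟩

end Pool.Agent.Helper38.SL

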